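import Pool.Agent.Helper25.LS.Defs

set_option autoImplicit false

open Filter Topology Module

noncomputable section

namespace Pool.Agent.Helper30.LS

open Pool.Agent.Helper25.LS

section aux

variable {X : ℕ → Type} [∀ j, NormedAddCommGroup (X j)] [∀ j, NormedSpace ℂ (X j)]

lemma s_nonneg (P : Rep X) (j i : ℕ) : 0 ≤ P.s j i := (norm_nonneg _).trans (P.hf j i)

lemma s_sq_le (P : Rep X) (j i : ℕ) : P.s j i ^ 2 ≤ P.R :=
  ((P.hs j).le_tsum i (fun _ _ => sq_nonneg _)).trans (P.hR j)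

lemma R_nonneg (P : Rep X) : 0 ≤ P.R := (sq_nonneg _).trans (s_sq_le P 0 0)

lemma s_le (P : Rep X) (j i : ℕ) : P.s j i ≤ Real.sqrt P.R :=
  Real.le_sqrt_of_sq_le (s_sq_le P j i)

lemma exists_lim (U : Ultrafilter ℕ) (a : ℕ → ℂ) (B : ℝ) (h : ∀ j, ‖a j‖ ≤ B) :
    ∃ l, Tendsto a (U : Filter ℕ) (𝓝 l) := by
  have hc : IsCompact (Metric.closedBall (0 : ℂ) B) := isCompact_closedBall _ _
  have hle : ((U.map a : Ultrafilter ℂ) : Filter ℂ) ≤ 𝓟 (Metric.closedBall (0 : ℂ) B) := by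
    rw [le_principal_iff]
    refine mem_map.2 ?_
    refine Filter.univ_mem' ?_
    intro j
    simpa using h j
  obtain ⟨l, _, hl⟩ := hc.ultrafilter_le_nhds _ hle
  exact ⟨l, hl⟩

lemma ker_tendsto {U : Ultrafilter ℕ} {Y : Type} [NormedAddCommGroup Y] [NormedSpace ℂ Y]
    (D : Ult X U Y) (x : lp X ⊤) (hx : D.π x = 0) (f : ∀ j, X j →L[ℂ] ℂ) (B : ℝ)
    (hB : ∀ j, ‖f j‖ ≤ B) : Tendsto (fun j => f j (x j)) (U : Filter ℕ) (𝓝 0) := by
  have h1 := D.lim x
  rw [hx, norm_zero] at h1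
  have h2 : Tendsto (fun j => B * ‖x j‖) (U : Filter ℕ) (𝓝 0) := by
    simpa using h1.const_mul B
  refine squeeze_zero_norm (fun j => ?_) h2
  exact ((f j).le_opNorm _).trans (mul_le_mul_of_nonneg_right (hB j) (norm_nonneg _))

/-- the limit functional -/
lemma exists_gamma {U : Ultrafilter ℕ} {Y : Type} [NormedAddCommGroup Y] [NormedSpace ℂ Y]
    (D : Ult X U Y) {H : Type} [NormedAddCommGroup H] [InnerProductSpace ℂ H] [CompleteSpace H]
    (Φ : Y ≃L[ℂ] H) (L : Lif X U Y D H Φ) (hΦ : ∀ y, ‖y‖ ≤ ‖Φ y‖)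
    (f : ∀ j, X j →L[ℂ] ℂ) (B : ℝ) (hB : ∀ j, ‖f j‖ ≤ B) :
    ∃ γ : H, ∀ h : H, Tendsto (fun j => f j (L.σ h j)) (U : Filter ℕ) (𝓝 (inner ℂ γ h)) := by
  have hB0 : 0 ≤ B := (norm_nonneg _).trans (hB 0)
  have hbd : ∀ h j, ‖f j (L.σ h j)‖ ≤ B * ‖Φ.symm h‖ := fun h j =>
    ((f j).le_opNorm _).trans (mul_le_mul (hB j) (L.bσ h j) (norm_nonneg _) hB0)
  choose l hl using fun h => exists_lim U (fun j => f j (L.σ h j)) _ (hbd h)
  have hadd : ∀ a b, l (a + b) = l a + l b := by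
    intro a b
    have hk : D.π (L.σ (a + b) - L.σ a - L.σ b) = 0 := by
      rw [map_sub, map_sub, L.hσ, L.hσ, L.hσ, map_add]
      abel
    have h1 := ker_tendsto D _ hk f B hB
    have h2 := ((hl (a + b)).sub (hl a)).sub (hl b)
    have h3 : Tendsto (fun j => f j ((L.σ (a + b) - L.σ a - L.σ b : lp X ⊤) j)) (U : Filter ℕ)
        (𝓝 (l (a + b) - l a - l b)) := by
      refine h2.congr ?_
      intro j
      rw [lp.coeFn_sub, Pi.sub_apply, lp.coeFn_sub, Pi.sub_apply, map_sub, map_sub]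
    have := tendsto_nhds_unique h3 h1
    linear_combination this
  have hsmul : ∀ (c : ℂ) a, l (c • a) = c * l a := by
    intro c a
    have hk : D.π (L.σ (c • a) - c • L.σ a) = 0 := by
      rw [map_sub, map_smul, L.hσ, L.hσ, map_smul]
      abel
    have h1 := ker_tendsto D _ hk f B hB
    have h2 := (hl (c • a)).sub ((hl a).const_mul c)
    have h3 : Tendsto (fun j => f j ((L.σ (c • a) - c • L.σ a : lp X ⊤) j)) (U : Filter ℕ)
        (𝓝 (l (c • a) - c * l a)) := by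
      refine h2.congr ?_
      intro j
      rw [lp.coeFn_sub, Pi.sub_apply, lp.coeFn_smul, Pi.smul_apply, map_sub, map_smul,
        smul_eq_mul]
    have := tendsto_nhds_unique h3 h1
    linear_combination this
  let lin : H →ₗ[ℂ] ℂ :=
    { toFun := l
      map_add' := hadd
      map_smul' := fun c a => (hsmul c a).trans rfl }
  have hlb : ∀ h, ‖lin h‖ ≤ B * ‖h‖ := by
    intro h
    have h1 : ‖l h‖ ≤ B * ‖Φ.symm h‖ :=
      le_of_tendsto (hl h).norm (Eventually.of_forall (hbd h))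
    have h2 : ‖Φ.symm h‖ ≤ ‖h‖ := by
      have := hΦ (Φ.symm h)
      rwa [Φ.apply_symm_apply] at this
    exact h1.trans (mul_le_mul_of_nonneg_left h2 hB0)
  let g : H →L[ℂ] ℂ := lin.mkContinuous B hlb
  refine ⟨(InnerProductSpace.toDual ℂ H).symm g, fun h => ?_⟩
  rw [InnerProductSpace.toDual_symm_apply]
  exact hl h

end aux

theorem mt (h1 : S_LI) (h2 : S_EG) (h3 : S_QB) : S_MT := by
  intro X _ _ _ U Y _ _ D H _ _ _ Φ C P T hΦ hT ε hε
  obtain ⟨L⟩ := h1 X U Y D H Φ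
  set C2 : ℝ := max C 0 + 1 with hC2
  have hC2pos : 0 < C2 := by
    have := le_max_right C 0
    linarith
  -- parameters
  set t : ℝ := C2 ^ 2 / ε with ht
  have htpos : 0 < t := by positivity
  set ε1 : ℝ := ε / (2 * t) with hε1
  have hε1pos : 0 < ε1 := by positivity
  obtain ⟨E1, hE1fin, hE1⟩ := h2 X U Y D H Φ L C P hΦ ε1 hε1pos
  have hγ : ∀ i, ∃ γ : H, ∀ h : H,
      Tendsto (fun j => P.f j i (L.σ h j)) (U : Filter ℕ) (𝓝 (inner ℂ γ h)) := fun i =>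
    exists_gamma D Φ L (fun y => (hΦ y).1) (fun j => P.f j i) (Real.sqrt P.R)
      (fun j => (P.hf j i).trans (s_le P j i))
  choose γ hγ using hγ
  let G : Submodule ℂ H := Submodule.span ℂ (Set.range fun i : Fin P.N => γ i)
  have hGfin : FiniteDimensional ℂ G := FiniteDimensional.span_of_finite ℂ (Set.finite_range _)
  refine ⟨E1 ⊔ G, inferInstance, ?_⟩
  intro m e u he hu heE
  have heE1 : ∀ k, e k ∈ E1ᗮ := fun k => by
    rw [Submodule.mem_orthogonal]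
    intro w hw
    exact (Submodule.mem_orthogonal _ _).1 (heE k) w (Submodule.mem_sup_left hw)
  have heγ : ∀ k, ∀ i < P.N, inner ℂ (γ i) (e k) = 0 := fun k i hi =>
    (Submodule.mem_orthogonal _ _).1 (heE k) _
      (Submodule.mem_sup_right (Submodule.subset_span ⟨⟨i, hi⟩, rfl⟩))
  -- the bounded sequences
  have hterm : ∀ (j : ℕ) (v : X j) (i : ℕ), ‖P.f j i v • P.x j i‖ ≤ P.s j i ^ 2 * ‖v‖ := by
    intro j v i
    rw [norm_smul]
    have a1 : ‖P.f j i v‖ ≤ P.s j i * ‖v‖ :=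
      ((P.f j i).le_opNorm v).trans (mul_le_mul_of_nonneg_right (P.hf j i) (norm_nonneg _))
    have a2 := P.hx j i
    calc ‖P.f j i v‖ * ‖P.x j i‖ ≤ (P.s j i * ‖v‖) * P.s j i :=
          mul_le_mul a1 a2 (norm_nonneg _) (mul_nonneg (s_nonneg P j i) (norm_nonneg _))
      _ = P.s j i ^ 2 * ‖v‖ := by ring
  have hsumm : ∀ (j : ℕ) (v : X j), Summable (fun i => P.f j i v • P.x j i) := fun j v =>
    Summable.of_norm_bounded ((P.hs j).mul_right ‖v‖) (hterm j v)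
  have hwbd : ∀ (j : ℕ) (v : X j), ‖∑' i, P.f j i v • P.x j i‖ ≤ P.R * ‖v‖ := by
    intro j v
    have b1 : ‖∑' i, P.f j i v • P.x j i‖ ≤ ∑' i, P.s j i ^ 2 * ‖v‖ :=
      tsum_of_norm_bounded ((P.hs j).mul_right ‖v‖).hasSum (hterm j v)
    rw [tsum_mul_right] at b1
    exact b1.trans (mul_le_mul_of_nonneg_right (P.hR j) (norm_nonneg _))
  have hw : ∀ k : Fin m, ∃ w : lp X ⊤, ∀ j, w j = ∑' i, P.f j i (L.σ (e k) j) • P.x j i := by
    intro k
    refine ⟨⟨fun j => ∑' i, P.f j i (L.σ (e k) j) • P.x j i, ?_⟩, fun j => rfl⟩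
    refine memℓp_infty ⟨P.R * ‖L.σ (e k)‖, ?_⟩
    rintro _ ⟨j, rfl⟩
    refine (hwbd j _).trans (mul_le_mul_of_nonneg_left ?_ (R_nonneg P))
    exact lp.norm_apply_le_norm (by simp) _ _
  choose w hw using hw
  have hinner : ∀ k, Tendsto (fun j => L.τ (u k) j (w k j)) (U : Filter ℕ)
      (𝓝 (inner ℂ (u k) (((Φ : Y →L[ℂ] H) ∘L T ∘L (Φ.symm : H →L[ℂ] Y)) (e k)))) := by
    intro k
    have c1 := L.hτ (u k) (w k)
    have c2 : T (Φ.symm (e k)) = D.π (w k) := by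
      rw [← L.hσ (e k)]
      exact hT _ _ (hw k)
    have c3 : (((Φ : Y →L[ℂ] H) ∘L T ∘L (Φ.symm : H →L[ℂ] Y)) (e k)) = Φ (D.π (w k)) := by
      rw [← c2]; rfl
    rw [c3]
    exact c1
  -- the head
  have hB : ∀ k, ∃ B : ℝ, ∀ j, ‖L.τ (u k) j‖ ≤ B := fun k => L.bτ (u k)
  choose B hB using hB
  have hhead : Tendsto (fun j => ∑ k, ∑ i ∈ Finset.range P.N,
      ‖P.f j i (L.σ (e k) j)‖ * ‖L.τ (u k) j (P.x j i)‖) (U : Filter ℕ) (𝓝 0) := by
    have : (0 : ℝ) = ∑ k : Fin m, ∑ i ∈ Finset.range P.N, (0 : ℝ) := by simp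
    rw [this]
    refine tendsto_finsetSum _ fun k _ => tendsto_finsetSum _ fun i hi => ?_
    have d1 : Tendsto (fun j => ‖P.f j i (L.σ (e k) j)‖) (U : Filter ℕ) (𝓝 0) := by
      have := (hγ i (e k)).norm
      rwa [heγ k i (Finset.mem_range.1 hi), norm_zero] at this
    have d2 : Tendsto (fun j => ‖P.f j i (L.σ (e k) j)‖ * (B k * Real.sqrt P.R))
        (U : Filter ℕ) (𝓝 0) := by
      simpa using d1.mul_const (B k * Real.sqrt P.R)
    refine squeeze_zero (fun j => by positivity) (fun j => ?_) d2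
    refine mul_le_mul_of_nonneg_left ?_ (norm_nonneg _)
    have hBk : 0 ≤ B k := (norm_nonneg _).trans (hB k j)
    exact ((L.τ (u k) j).le_opNorm _).trans
      (mul_le_mul (hB k j) ((P.hx j i).trans (s_le P j i)) (norm_nonneg _) hBk)
  -- the tail
  have htail : ∀ᶠ j in (U : Filter ℕ), ∑ k, ‖L.τ (u k) j (w k j)‖ ≤
      (∑ k, ∑ i ∈ Finset.range P.N, ‖P.f j i (L.σ (e k) j)‖ * ‖L.τ (u k) j (P.x j i)‖) +
        ε / 2 := by
    have q1 := hE1 m e he heE1
    have q2 := h3 X U Y D H Φ L (max C 0) C2 (le_max_right _ _) (by rw [hC2]; linarith)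
      (fun y => (hΦ y).2.trans (mul_le_mul_of_nonneg_right (le_max_left _ _) (norm_nonneg _)))
      m u hu
    filter_upwards [q1, q2] with j hj1 hj2
    -- abbreviations
    have hsN : Summable (fun i => P.s j (i + P.N) ^ 2) :=
      (summable_nat_add_iff (f := fun i => P.s j i ^ 2) P.N).2 (P.hs j)
    have hfb : ∀ k i, ‖P.f j i (L.σ (e k) j)‖ ≤ P.s j i * ‖L.σ (e k) j‖ := fun k i =>
      ((P.f j i).le_opNorm _).trans (mul_le_mul_of_nonneg_right (P.hf j i) (norm_nonneg _))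
    have htb : ∀ (h : H) i, ‖L.τ h j (P.x j i)‖ ≤ ‖L.τ h j‖ * P.s j i := fun h i =>
      ((L.τ h j).le_opNorm _).trans (mul_le_mul_of_nonneg_left (P.hx j i) (norm_nonneg _))
    have hS1 : Summable (fun i => ∑ k, ‖P.f j (i + P.N) (L.σ (e k) j)‖ ^ 2) := by
      refine Summable.of_nonneg_of_le (fun i => by positivity) (fun i => ?_)
        (hsN.mul_right (∑ k, ‖L.σ (e k) j‖ ^ 2))
      rw [Finset.mul_sum]
      refine Finset.sum_le_sum fun k _ => ?_
      rw [← mul_pow]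
      exact pow_le_pow_left₀ (norm_nonneg _) (hfb k _) 2
    have hS2 : ∀ u : Fin m → H, Summable (fun i => ∑ k, ‖L.τ (u k) j (P.x j (i + P.N))‖ ^ 2) := by
      intro u
      refine Summable.of_nonneg_of_le (fun i => by positivity) (fun i => ?_)
        (hsN.mul_left (∑ k, ‖L.τ (u k) j‖ ^ 2))
      rw [Finset.sum_mul]
      refine Finset.sum_le_sum fun k _ => ?_
      rw [← mul_pow]
      exact pow_le_pow_left₀ (norm_nonneg _) (htb (u k) _) 2
    have hS1le : ∑' i, ∑ k, ‖P.f j (i + P.N) (L.σ (e k) j)‖ ^ 2 ≤ ε1 := by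
      refine le_trans ?_ hj1
      refine Summable.tsum_le_tsum (fun i => ?_) hS1 ?_
      · refine Finset.sum_le_sum fun k _ => ?_
        have := sq_nonneg ‖L.τ (e k) j (P.x j (i + P.N))‖
        linarith
      · simp_rw [Finset.sum_add_distrib]
        exact hS1.add (hS2 e)
    have hS2le : ∑' i, ∑ k, ‖L.τ (u k) j (P.x j (i + P.N))‖ ^ 2 ≤ C2 ^ 2 * (1 / 8) := by
      have e1 : ∑' i, ∑ k, ‖L.τ (u k) j (P.x j (i + P.N))‖ ^ 2 ≤
          ∑' i, C2 ^ 2 * P.s j (i + P.N) ^ 2 := by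
        refine Summable.tsum_le_tsum (fun i => ?_) (hS2 u) (hsN.mul_left _)
        refine (hj2 _).trans (mul_le_mul_of_nonneg_left ?_ (sq_nonneg _))
        exact pow_le_pow_left₀ (norm_nonneg _) (P.hx j _) 2
      rw [tsum_mul_left] at e1
      exact e1.trans (mul_le_mul_of_nonneg_left (P.ht j) (sq_nonneg _))
    -- products
    have hprod : ∀ k i, ‖P.f j i (L.σ (e k) j)‖ * ‖L.τ (u k) j (P.x j i)‖ ≤
        P.s j i ^ 2 * (‖L.σ (e k) j‖ * ‖L.τ (u k) j‖) := by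
      intro k i
      calc ‖P.f j i (L.σ (e k) j)‖ * ‖L.τ (u k) j (P.x j i)‖
          ≤ (P.s j i * ‖L.σ (e k) j‖) * (‖L.τ (u k) j‖ * P.s j i) :=
            mul_le_mul (hfb k i) (htb _ i) (norm_nonneg _)
              (mul_nonneg (s_nonneg P j i) (norm_nonneg _))
        _ = _ := by ring
    have hSp : ∀ k, Summable (fun i =>
        ‖P.f j i (L.σ (e k) j)‖ * ‖L.τ (u k) j (P.x j i)‖) := fun k =>
      Summable.of_nonneg_of_le (fun i => by positivity) (hprod k)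
        ((P.hs j).mul_right _)
    have hSpN : ∀ k, Summable (fun i =>
        ‖P.f j (i + P.N) (L.σ (e k) j)‖ * ‖L.τ (u k) j (P.x j (i + P.N))‖) := fun k =>
      (summable_nat_add_iff (f := fun i =>
        ‖P.f j i (L.σ (e k) j)‖ * ‖L.τ (u k) j (P.x j i)‖) P.N).2 (hSp k)
    have hk : ∀ k, ‖L.τ (u k) j (w k j)‖ ≤
        ∑ i ∈ Finset.range P.N, ‖P.f j i (L.σ (e k) j)‖ * ‖L.τ (u k) j (P.x j i)‖ +
        ∑' i, ‖P.f j (i + P.N) (L.σ (e k) j)‖ * ‖L.τ (u k) j (P.x j (i + P.N))‖ := by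
      intro k
      rw [hw k j, (L.τ (u k) j).map_tsum (hsumm j _)]
      have g1 : ‖∑' i, L.τ (u k) j (P.f j i (L.σ (e k) j) • P.x j i)‖ ≤
          ∑' i, ‖P.f j i (L.σ (e k) j)‖ * ‖L.τ (u k) j (P.x j i)‖ := by
        refine tsum_of_norm_bounded (hSp k).hasSum fun i => ?_
        rw [map_smul, norm_smul]
      refine g1.trans_eq ?_
      exact ((hSp k).sum_add_tsum_nat_add P.N).symm
    have hsumtail : ∑ k, ∑' i, ‖P.f j (i + P.N) (L.σ (e k) j)‖ *
        ‖L.τ (u k) j (P.x j (i + P.N))‖ ≤ ε / 2 := by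
      rw [← Summable.tsum_finsetSum (fun k _ => hSpN k)]
      have g2 : ∑' i, ∑ k, ‖P.f j (i + P.N) (L.σ (e k) j)‖ *
          ‖L.τ (u k) j (P.x j (i + P.N))‖ ≤
          ∑' i, (t / 2 * (∑ k, ‖P.f j (i + P.N) (L.σ (e k) j)‖ ^ 2) +
            1 / (2 * t) * (∑ k, ‖L.τ (u k) j (P.x j (i + P.N))‖ ^ 2)) := by
        refine Summable.tsum_le_tsum (fun i => ?_) (summable_sum fun k _ => hSpN k)
          ((hS1.mul_left _).add ((hS2 u).mul_left _))
        rw [Finset.mul_sum, Finset.mul_sum, ← Finset.sum_add_distrib]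
        refine Finset.sum_le_sum fun k _ => ?_
        set a := ‖P.f j (i + P.N) (L.σ (e k) j)‖
        set b := ‖L.τ (u k) j (P.x j (i + P.N))‖
        have hsq := sq_nonneg (t * a - b)
        rw [← sub_nonneg]
        have : t / 2 * a ^ 2 + 1 / (2 * t) * b ^ 2 - a * b = (t * a - b) ^ 2 / (2 * t) := by
          field_simp
          ring
        rw [this]
        positivity
      rw [(Summable.tsum_add (hS1.mul_left _) ((hS2 u).mul_left _)), tsum_mul_left,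
        tsum_mul_left] at g2
      refine g2.trans ?_
      have g3 : t / 2 * (∑' i, ∑ k, ‖P.f j (i + P.N) (L.σ (e k) j)‖ ^ 2) ≤ t / 2 * ε1 :=
        mul_le_mul_of_nonneg_left hS1le (by positivity)
      have g4 : 1 / (2 * t) * (∑' i, ∑ k, ‖L.τ (u k) j (P.x j (i + P.N))‖ ^ 2) ≤
          1 / (2 * t) * (C2 ^ 2 * (1 / 8)) :=
        mul_le_mul_of_nonneg_left hS2le (by positivity)
      have g5 : t / 2 * ε1 = ε / 4 := by
        rw [hε1]; field_simp; ring
      have g6 : 1 / (2 * t) * (C2 ^ 2 * (1 / 8)) = ε / 16 := by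
        rw [ht]; field_simp; ring
      rw [g5] at g3
      rw [g6] at g4
      linarith
    calc ∑ k, ‖L.τ (u k) j (w k j)‖ ≤ ∑ k,
        (∑ i ∈ Finset.range P.N, ‖P.f j i (L.σ (e k) j)‖ * ‖L.τ (u k) j (P.x j i)‖ +
        ∑' i, ‖P.f j (i + P.N) (L.σ (e k) j)‖ * ‖L.τ (u k) j (P.x j (i + P.N))‖) :=
          Finset.sum_le_sum fun k _ => hk k
      _ ≤ _ := by
          rw [Finset.sum_add_distrib]
          linarith
  have hlim : Tendsto (fun j => ∑ k, ‖L.τ (u k) j (w k j)‖) (U : Filter ℕ)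
      (𝓝 (∑ k, ‖inner ℂ (u k) (((Φ : Y →L[ℂ] H) ∘L T ∘L (Φ.symm : H →L[ℂ] Y)) (e k))‖)) :=
    tendsto_finsetSum _ fun k _ => (hinner k).norm
  have hlim2 : Tendsto (fun j => (∑ k, ∑ i ∈ Finset.range P.N,
      ‖P.f j i (L.σ (e k) j)‖ * ‖L.τ (u k) j (P.x j i)‖) + ε / 2) (U : Filter ℕ)
      (𝓝 (0 + ε / 2)) := hhead.add_const _
  have := le_of_tendsto_of_tendsto hlim hlim2 htail
  linarith

end Pool.Agent.Helper30.LS
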